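import Mathlib
import Pool.Agent.H26.BL5

set_option autoImplicit false

namespace Pool.Agent.Results.MP_9b1016_an.Equivalence

open H26 BL0 BL1 BL5

def Hom1 (A C : BL) : Type := {φ : A →L[ℝ] C // IsHom φ ∧ ‖φ‖ ≤ 1}

@[reducible] noncomputable def ptNorm (A C : BL) : TopologicalSpace (Hom1 A C) :=
  TopologicalSpace.induced (fun φ => (φ.1 : A → C)) inferInstance

def Liftable {A B Z : BL} (Q : B →L[ℝ] Z) (φ : A →L[ℝ] Z) : Prop :=
  ∀ ε > 0, ∃ ψ : A →L[ℝ] B, IsHom ψ ∧ Q.comp ψ = φ ∧ ‖ψ‖ ≤ 1 + ε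

def LOpen (A : BL) : Prop :=
  ∀ (B Z : BL) (Q : B →L[ℝ] Z), TopologicalSpace.SeparableSpace B → IsQuot Q →
    @IsOpen _ (ptNorm A Z) {φ : Hom1 A Z | Liftable Q φ.1}

lemma hom_smul {A B : BL} {φ : A →L[ℝ] B} (h : IsHom φ) {c : ℝ} (hc : 0 ≤ c) : IsHom (c • φ) :=
  fun x => by
    rw [ContinuousLinearMap.smul_apply, ContinuousLinearMap.smul_apply, h, abs_smul', abs_of_nonneg hc]

theorem result (A : BL) : (Semiproj A → LOpen A) ∧ (LOpen A → Semiproj A) := by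
  refine ⟨fun h B Z Q _ hQ => ?_, fun h => semiproj_of_lift fun X Z Q hX hQ φ h1 h2 => ?_⟩
  · rw [Set.eq_univ_of_forall (s := {φ : Hom1 A Z | Liftable Q φ.1}) fun φ ε hε =>
      (semiproj_lift h hQ φ.2.1 φ.2.2 hε).imp fun _ h => ⟨h.1, h.2.2, h.2.1⟩]
    exact @isOpen_univ _ (ptNorm A Z)
  letI := ptNorm A Z
  let γ : Set.Icc (0 : ℝ) 1 → Hom1 A Z := fun t => ⟨t.1 • φ, hom_smul h1 t.2.1, by
    rw [norm_smul, Real.norm_of_nonneg t.2.1]
    exact mul_le_one₀ t.2.2 (norm_nonneg _) h2⟩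
  have hγ : Continuous γ := continuous_induced_rng.2 (continuous_pi fun a =>
    continuous_subtype_val.smul (continuous_const (y := φ a)))
  have h0 : ∀ t : Set.Icc (0 : ℝ) 1, t.1 = 0 → Liftable Q (γ t).1 := fun t ht ε hε =>
    ⟨0, fun _ => by simp, by simp [γ, ht], by rw [norm_zero]; positivity⟩
  have hc : IsClosed (γ ⁻¹' {φ | Liftable Q φ.1}) := isClosed_of_closure_subset fun t ht => by
    rcases t.2.1.eq_or_lt with h3 | h3
    · exact h0 t h3.symm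
    intro ε hε
    have h4 : ContinuousAt (fun s : Set.Icc (0 : ℝ) 1 => t.1 / s.1 * (1 + ε / 2)) t :=
      (continuousAt_const.div continuousAt_subtype_val h3.ne').mul continuousAt_const
    obtain ⟨s, ⟨h5, h6⟩, h7⟩ := mem_closure_iff_nhds.1 ht _ (Filter.inter_mem
      (h4.eventually (gt_mem_nhds (show t.1 / t.1 * _ < 1 + ε by rw [div_self h3.ne']; linarith)))
      (continuousAt_subtype_val.eventually (lt_mem_nhds h3)))
    obtain ⟨ψ, h8, h9, h10⟩ := h7 _ (half_pos hε)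
    have h11 := div_nonneg h3.le (le_of_lt h6)
    refine ⟨(t.1 / s.1) • ψ, hom_smul h8 h11, ?_, ?_⟩
    · rw [ContinuousLinearMap.comp_smul, h9]
      exact (smul_smul _ _ _).trans (by rw [div_mul_cancel₀ _ (ne_of_gt h6)])
    · rw [norm_smul, Real.norm_of_nonneg h11]
      exact (mul_le_mul_of_nonneg_left h10 h11).trans (le_of_lt h5)
  have h3 := (IsClopen.eq_univ ⟨hc, (h X Z Q hX hQ).preimage hγ⟩ ⟨0, h0 0 rfl⟩).ge (Set.mem_univ 1)
  exact fun ε hε => (h3 ε hε).imp fun ψ h => ⟨h.1, h.2.2, h.2.1.trans (one_smul ℝ φ)⟩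

end Pool.Agent.Results.MP_9b1016_an.Equivalence
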